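import Mathlib
import Pool.Agent.Y857.LB.Ball

set_option autoImplicit false

/-!
# Cones over complexes with vertices in `Fin n`
-/

namespace Pool.Agent.K9h74.NE

open Finset Pool.Agent.H933R3 Pool.Agent.Y857.LB

/-- the trace of a subset of `Fin (n + 1)` on the vertices `1, …, n`, relabelled `0, …, n - 1` -/
def down {n : ℕ} (τ : Finset (Fin (n + 1))) : Finset (Fin n) := univ.filter (fun i => i.succ ∈ τ)

theorem mem_down {n : ℕ} {τ : Finset (Fin (n + 1))} {i : Fin n} : i ∈ down τ ↔ i.succ ∈ τ := by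
  simp [down]

/-- The cone over `K` with apex `0`; the vertex `i` of `K` becomes the vertex `i + 1`.  Its faces
are the sets `σ + 1` and `{0} ∪ (σ + 1)` for `σ ∈ K`. -/
def cone {n : ℕ} (K : Finset (Finset (Fin n))) : Finset (Finset (Fin (n + 1))) :=
  univ.filter (fun τ => down τ ∈ K)

theorem mem_cone {n : ℕ} {K : Finset (Finset (Fin n))} {τ : Finset (Fin (n + 1))} :
    τ ∈ cone K ↔ down τ ∈ K := by
  simp [cone]

theorem down_mono {n : ℕ} {σ τ : Finset (Fin (n + 1))} (h : σ ⊆ τ) : down σ ⊆ down τ :=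
  fun _ hi => mem_down.2 (h (mem_down.1 hi))

theorem down_empty {n : ℕ} : down (∅ : Finset (Fin (n + 1))) = ∅ := by
  ext i; simp [down]

theorem isCx_cone {n : ℕ} {K : Finset (Finset (Fin n))} (h : IsCx K) : IsCx (cone K) := by
  refine ⟨mem_cone.2 (by rw [down_empty]; exact h.1), fun σ hσ τ hτ => mem_cone.2 ?_⟩
  exact h.2 _ (mem_cone.1 hσ) _ (down_mono hτ)

/-- the copy of a set -/
def lift {n : ℕ} (σ : Finset (Fin n)) : Finset (Fin (n + 1)) := σ.map (Fin.succEmb n)

theorem mem_lift {n : ℕ} {σ : Finset (Fin n)} {i : Fin (n + 1)} :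
    i ∈ lift σ ↔ ∃ j ∈ σ, j.succ = i := by
  simp [lift]

theorem succ_mem_lift {n : ℕ} {σ : Finset (Fin n)} {i : Fin n} : i.succ ∈ lift σ ↔ i ∈ σ := by
  rw [mem_lift]
  constructor
  · rintro ⟨j, hj, h⟩
    exact Fin.succ_injective _ h ▸ hj
  · intro h
    exact ⟨i, h, rfl⟩

theorem zero_notMem_lift {n : ℕ} {σ : Finset (Fin n)} : (0 : Fin (n + 1)) ∉ lift σ := by
  rw [mem_lift]
  rintro ⟨j, _, h⟩
  exact Fin.succ_ne_zero j h

theorem down_lift {n : ℕ} (σ : Finset (Fin n)) : down (lift σ) = σ := by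
  ext i; rw [mem_down, succ_mem_lift]

theorem down_insert {n : ℕ} (τ : Finset (Fin (n + 1))) : down (insert 0 τ) = down τ := by
  ext i
  rw [mem_down, mem_down, mem_insert]
  constructor
  · rintro (h | h)
    · exact absurd h (Fin.succ_ne_zero i)
    · exact h
  · exact Or.inr

theorem down_erase {n : ℕ} (τ : Finset (Fin (n + 1))) : down (τ.erase 0) = down τ := by
  ext i
  rw [mem_down, mem_down, mem_erase]
  exact ⟨fun h => h.2, fun h => ⟨Fin.succ_ne_zero i, h⟩⟩

theorem insert_lift_down {n : ℕ} (τ : Finset (Fin (n + 1))) :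
    insert 0 (lift (down τ)) = insert 0 τ := by
  ext i
  rw [mem_insert, mem_insert]
  refine Fin.cases (by simp) (fun i => ?_) i
  rw [succ_mem_lift, mem_down]

theorem lift_down {n : ℕ} {τ : Finset (Fin (n + 1))} (h : 0 ∉ τ) : lift (down τ) = τ := by
  ext i
  refine Fin.cases ?_ (fun i => ?_) i
  · exact ⟨fun h' => absurd h' zero_notMem_lift, fun h' => absurd h' h⟩
  · rw [succ_mem_lift, mem_down]

theorem card_lift {n : ℕ} (σ : Finset (Fin n)) : (lift σ).card = σ.card := card_map _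

theorem card_down {n : ℕ} {τ : Finset (Fin (n + 1))} (h : 0 ∈ τ) :
    (down τ).card + 1 = τ.card := by
  have h1 : insert 0 (lift (down τ)) = τ := by
    rw [insert_lift_down, insert_eq_of_mem h]
  calc (down τ).card + 1 = (insert 0 (lift (down τ))).card := by
        rw [card_insert_of_notMem zero_notMem_lift, card_lift]
    _ = τ.card := by rw [h1]

/-! ### The cone over a ball is a ball -/

/-- the model of the cone over a ball -/
def Dc (d : ℕ) : Set (EuclideanSpace ℝ (Fin d) × ℝ) := {p | ‖p.1‖ + p.2 ≤ 1 ∧ 0 ≤ p.2}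

theorem Dc_convex (d : ℕ) : Convex ℝ (Dc d) := by
  intro p hp q hq s t hs ht hst
  obtain ⟨hp1, hp2⟩ := hp
  obtain ⟨hq1, hq2⟩ := hq
  constructor
  · show ‖s • p.1 + t • q.1‖ + (s • p.2 + t • q.2) ≤ 1
    have h1 : ‖s • p.1 + t • q.1‖ ≤ s * ‖p.1‖ + t * ‖q.1‖ := by
      refine (norm_add_le _ _).trans ?_
      rw [norm_smul, norm_smul, Real.norm_of_nonneg hs, Real.norm_of_nonneg ht]
    simp only [smul_eq_mul]
    nlinarith
  · show 0 ≤ s • p.2 + t • q.2
    simp only [smul_eq_mul]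
    exact add_nonneg (mul_nonneg hs hp2) (mul_nonneg ht hq2)

theorem Dc_closed (d : ℕ) : IsClosed (Dc d) := by
  have h1 : IsClosed {p : EuclideanSpace ℝ (Fin d) × ℝ | ‖p.1‖ + p.2 ≤ 1} :=
    isClosed_le (by fun_prop) (by fun_prop)
  have h2 : IsClosed {p : EuclideanSpace ℝ (Fin d) × ℝ | 0 ≤ p.2} :=
    isClosed_le (by fun_prop) (by fun_prop)
  exact h1.inter h2

theorem Dc_bounded (d : ℕ) : Bornology.IsBounded (Dc d) := by
  apply Metric.isBounded_closedBall (x := (0 : EuclideanSpace ℝ (Fin d) × ℝ)) (r := 1) |>.subset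
  intro p hp
  obtain ⟨hp1, hp2⟩ := hp
  rw [mem_closedBall_zero_iff, Prod.norm_def]
  apply max_le
  · linarith
  · rw [Real.norm_of_nonneg hp2]
    linarith [norm_nonneg p.1]

theorem Dc_int (d : ℕ) : (interior (Dc d)).Nonempty := by
  refine ⟨(0, 1 / 2), ?_⟩
  have ho : IsOpen ({p : EuclideanSpace ℝ (Fin d) × ℝ | ‖p.1‖ + p.2 < 1} ∩ {p | 0 < p.2}) := by
    apply IsOpen.inter
    · exact isOpen_lt (by fun_prop) (by fun_prop)
    · exact isOpen_lt (by fun_prop) (by fun_prop)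
  refine interior_maximal (fun p hp => ?_) ho ?_
  · exact ⟨le_of_lt hp.1, le_of_lt hp.2⟩
  · constructor
    · show ‖(0 : EuclideanSpace ℝ (Fin d))‖ + (1 / 2 : ℝ) < 1
      rw [norm_zero]; norm_num
    · show (0 : ℝ) < 1 / 2
      norm_num

theorem Dc_ball (d : ℕ) :
    Nonempty (Dc d ≃ₜ Metric.closedBall (0 : EuclideanSpace ℝ (Fin (d + 1))) 1) := by
  let e : (EuclideanSpace ℝ (Fin d) × ℝ) ≃L[ℝ] EuclideanSpace ℝ (Fin (d + 1)) :=
    ContinuousLinearEquiv.ofFinrankEq (by simp)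
  have hc : Convex ℝ (e.symm ⁻¹' (Dc d)) := (Dc_convex d).linear_preimage e.symm.toLinearMap
  have hcl : IsClosed (e.symm ⁻¹' (Dc d)) := (Dc_closed d).preimage e.symm.continuous
  have hint : (interior (e.symm ⁻¹' (Dc d))).Nonempty := by
    have : interior (e.symm ⁻¹' (Dc d)) = e.symm ⁻¹' interior (Dc d) :=
      (e.symm.toHomeomorph.preimage_interior (Dc d)).symm
    rw [this]
    obtain ⟨x, hx⟩ := Dc_int d
    refine ⟨e x, ?_⟩
    show e.symm (e x) ∈ interior (Dc d)
    rw [ContinuousLinearEquiv.symm_apply_apply]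
    exact hx
  have himg : e.symm ⁻¹' (Dc d) = e '' (Dc d) := by
    ext x
    constructor
    · intro hx
      exact ⟨e.symm x, hx, by simp⟩
    · rintro ⟨y, hy, rfl⟩
      show e.symm (e y) ∈ Dc d
      rw [ContinuousLinearEquiv.symm_apply_apply]
      exact hy
  have hb : Bornology.IsBounded (e.symm ⁻¹' (Dc d)) := by
    rw [himg]
    exact e.lipschitz.isBounded_image (Dc_bounded d)
  obtain ⟨h, -, h2, -⟩ := exists_homeomorph_image_interior_closure_frontier_eq_unitBall hc hint hb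
  rw [hcl.closure_eq, himg] at h2
  exact ⟨((e.toHomeomorph.image (Dc d)).trans (h.image (e '' Dc d))).trans (Homeomorph.setCongr h2)⟩

section main
variable {n d : ℕ} {K : Finset (Finset (Fin n))}

/-- the map onto the realization of the cone -/
noncomputable def qc (x : Fin n → ℝ) (r : ℝ) : Fin (n + 1) → ℝ :=
  Fin.cons r (fun i => (1 - r) * x i)

theorem qc_zero (x : Fin n → ℝ) (r : ℝ) : qc x r 0 = r := rfl

theorem qc_succ (x : Fin n → ℝ) (r : ℝ) (i : Fin n) : qc x r i.succ = (1 - r) * x i := rfl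

theorem qc_mem {x : Fin n → ℝ} (hx : x ∈ realization K) {r : ℝ} (hr0 : 0 ≤ r) (hr : r ≤ 1) :
    qc x r ∈ realization (cone K) := by
  obtain ⟨h0, h1, σ, hσ, h2⟩ := hx
  refine ⟨?_, ?_, ?_⟩
  · intro i
    refine Fin.cases ?_ (fun i => ?_) i
    · rw [qc_zero]; exact hr0
    · rw [qc_succ]; exact mul_nonneg (by linarith) (h0 i)
  · rw [Fin.sum_univ_succ, qc_zero]
    have : ∑ i : Fin n, qc x r i.succ = (1 - r) * ∑ i, x i := by
      rw [mul_sum]
      exact sum_congr rfl fun i _ => qc_succ x r i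
    rw [this, h1]
    ring
  · refine ⟨insert 0 (lift σ), mem_cone.2 (by rw [down_insert, down_lift]; exact hσ), ?_⟩
    intro i
    refine Fin.cases ?_ (fun i => ?_) i
    · intro hi
      exact absurd (mem_insert_self _ _) hi
    · intro hi
      rw [qc_succ, h2 i (fun h => hi (mem_insert_of_mem (succ_mem_lift.2 h))), mul_zero]

/-- every point of the realization is in the image -/
theorem qc_surj {y : Fin (n + 1) → ℝ} (hy : y ∈ realization (cone K)) :
    ∃ r : ℝ, 0 ≤ r ∧ r ≤ 1 ∧ (r = 1 → ∀ x, qc x r = y) ∧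
      (r ≠ 1 → ∃ x ∈ realization K, qc x r = y) := by
  obtain ⟨h0, h1, s, hs, h2⟩ := hy
  rw [Fin.sum_univ_succ] at h1
  have hS : 0 ≤ ∑ i : Fin n, y i.succ := sum_nonneg fun i _ => h0 _
  rw [mem_cone] at hs
  refine ⟨y 0, h0 0, by linarith, ?_, ?_⟩
  · intro hr x
    have hz : ∑ i : Fin n, y i.succ = 0 := by linarith
    have hz' := (sum_eq_zero_iff_of_nonneg fun (i : Fin n) _ => h0 i.succ).1 hz
    funext i
    refine Fin.cases ?_ (fun i => ?_) i
    · rw [qc_zero]
    · rw [qc_succ, hr, hz' i (mem_univ _)]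
      ring
  · intro hr
    have hlt : 0 < 1 - y 0 := by
      have h3 : y 0 ≤ 1 := by linarith
      have := lt_of_le_of_ne h3 hr
      linarith
    refine ⟨fun i => y i.succ / (1 - y 0), ⟨?_, ?_, down s, hs, ?_⟩, ?_⟩
    · intro i
      exact div_nonneg (h0 _) hlt.le
    · rw [← sum_div, div_eq_one_iff_eq hlt.ne']
      linarith
    · intro i hi
      show y i.succ / _ = 0
      rw [h2 _ (fun h => hi (mem_down.2 h)), zero_div]
    · funext i
      refine Fin.cases ?_ (fun i => ?_) i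
      · rw [qc_zero]
      · rw [qc_succ]
        field_simp

theorem qc_eq_iff {x x' : Fin n → ℝ} {r r' : ℝ} :
    qc x r = qc x' r' ↔ r = r' ∧ (r = 1 ∨ x = x') := by
  constructor
  · intro h
    have hr : r = r' := congrFun h 0
    refine ⟨hr, ?_⟩
    subst hr
    by_cases h2 : r = 1
    · exact Or.inl h2
    · right
      have h3 : 1 - r ≠ 0 := fun h4 => h2 (by linarith)
      funext i
      exact mul_left_cancel₀ h3 (congrFun h i.succ)
  · rintro ⟨rfl, h | rfl⟩
    · funext i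
      refine Fin.cases rfl (fun i => ?_) i
      rw [qc_succ, qc_succ, h]
      ring
    · rfl

theorem isBall_cone (hK : IsBall d K) : IsBall (d + 1) (cone K) := by
  obtain ⟨h⟩ := hK
  have : CompactSpace (Metric.closedBall (0 : EuclideanSpace ℝ (Fin d)) 1) :=
    isCompact_iff_compactSpace.1 (isCompact_closedBall 0 1)
  let P := Metric.closedBall (0 : EuclideanSpace ℝ (Fin d)) 1 × Set.Icc (0 : ℝ) 1
  let Q1 : P → realization (cone K) := fun p =>
    ⟨qc (h.symm p.1).1 p.2.1, qc_mem (h.symm p.1).2 p.2.2.1 p.2.2.2⟩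
  let Q2 : P → Dc d := fun p => ⟨((1 - p.2.1) • p.1.1, p.2.1), by
    have h1 : p.2.1 ≤ 1 := p.2.2.2
    have h2 : ‖(p.1.1 : EuclideanSpace ℝ (Fin d))‖ ≤ 1 := mem_closedBall_zero_iff.1 p.1.2
    refine ⟨?_, p.2.2.1⟩
    show ‖(1 - p.2.1) • (p.1.1 : EuclideanSpace ℝ (Fin d))‖ + p.2.1 ≤ 1
    rw [norm_smul, Real.norm_of_nonneg (by linarith)]
    nlinarith [norm_nonneg (p.1.1 : EuclideanSpace ℝ (Fin d))]⟩
  have c1 : Continuous Q1 := by
    apply Continuous.subtype_mk
    apply continuous_pi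
    intro i
    have hr : Continuous fun p : P => (p.2.1 : ℝ) := continuous_subtype_val.comp continuous_snd
    have hx : ∀ j : Fin n, Continuous fun p : P => (h.symm p.1).1 j := fun j =>
      (continuous_apply j).comp (continuous_subtype_val.comp (h.symm.continuous.comp continuous_fst))
    refine Fin.cases ?_ (fun i => ?_) i
    · exact hr
    · show Continuous fun p : P => (1 - p.2.1) * (h.symm p.1).1 i
      exact (continuous_const.sub hr).mul (hx i)
  have c2 : Continuous Q2 := by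
    apply Continuous.subtype_mk
    have hr : Continuous fun p : P => (p.2.1 : ℝ) := continuous_subtype_val.comp continuous_snd
    have hx : Continuous fun p : P => (p.1.1 : EuclideanSpace ℝ (Fin d)) :=
      continuous_subtype_val.comp continuous_fst
    exact ((continuous_const.sub hr).smul hx).prodMk hr
  have s1 : Function.Surjective Q1 := by
    rintro ⟨y, hy⟩
    obtain ⟨r, hr0, hr, h1, h2⟩ := qc_surj hy
    by_cases hr1 : r = 1
    · refine ⟨(⟨0, by simp⟩, ⟨r, hr0, hr⟩), ?_⟩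
      exact Subtype.ext (h1 hr1 _)
    · obtain ⟨x, hx, hxy⟩ := h2 hr1
      refine ⟨(h ⟨x, hx⟩, ⟨r, hr0, hr⟩), ?_⟩
      apply Subtype.ext
      show qc (h.symm (h ⟨x, hx⟩)).1 r = y
      rw [h.symm_apply_apply]
      exact hxy
  have s2 : Function.Surjective Q2 := by
    rintro ⟨⟨z, r⟩, hz, hr0⟩
    have hz' : ‖z‖ + r ≤ 1 := hz
    have hr0' : 0 ≤ r := hr0
    have hr : r ≤ 1 := by linarith [norm_nonneg z]
    by_cases hr1 : r = 1
    · refine ⟨(⟨0, by simp⟩, ⟨r, hr0', hr⟩), ?_⟩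
      apply Subtype.ext
      have hz0 : z = 0 := by
        rw [hr1] at hz'
        exact norm_eq_zero.1 (le_antisymm (by linarith) (norm_nonneg z))
      show ((1 - r) • (0 : EuclideanSpace ℝ (Fin d)), r) = (z, r)
      rw [smul_zero, hz0]
    · have hlt : 0 < 1 - r := by
        have := lt_of_le_of_ne hr hr1
        linarith
      refine ⟨(⟨(1 - r)⁻¹ • z, ?_⟩, ⟨r, hr0', hr⟩), ?_⟩
      · rw [mem_closedBall_zero_iff, norm_smul, norm_inv, Real.norm_of_nonneg hlt.le,
          inv_mul_le_iff₀ hlt]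
        linarith
      · apply Subtype.ext
        show ((1 - r) • ((1 - r)⁻¹ • z), r) = (z, r)
        rw [smul_inv_smul₀ hlt.ne']
  have hk : ∀ p p', Q1 p = Q1 p' ↔ Q2 p = Q2 p' := by
    rintro ⟨z, r⟩ ⟨z', r'⟩
    have e1 : Q1 (z, r) = Q1 (z', r') ↔ r.1 = r'.1 ∧ (r.1 = 1 ∨ z = z') := by
      rw [Subtype.ext_iff]
      show qc (h.symm z).1 r.1 = qc (h.symm z').1 r'.1 ↔ _
      rw [qc_eq_iff]
      have e3 : (h.symm z).1 = (h.symm z').1 ↔ z = z' :=
        Subtype.ext_iff.symm.trans h.symm.injective.eq_iff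
      rw [e3]
    have e2 : Q2 (z, r) = Q2 (z', r') ↔ r.1 = r'.1 ∧ (r.1 = 1 ∨ z = z') := by
      rw [Subtype.ext_iff]
      show ((1 - r.1) • z.1, r.1) = ((1 - r'.1) • z'.1, r'.1) ↔ _
      rw [Prod.mk.injEq]
      constructor
      · rintro ⟨h1, h2⟩
        refine ⟨h2, ?_⟩
        rw [← h2] at h1
        by_cases h3 : r.1 = 1
        · exact Or.inl h3
        · right
          have h4 : 1 - r.1 ≠ 0 := fun h5 => h3 (by linarith)
          exact Subtype.ext (smul_right_injective _ h4 h1)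
      · rintro ⟨h1, h2 | h2⟩
        · refine ⟨?_, h1⟩
          rw [← h1, h2, sub_self, zero_smul, zero_smul]
        · rw [h2, h1]
          exact ⟨rfl, rfl⟩
    rw [e1, e2]
  obtain ⟨e⟩ := homeo_of_ker Q1 Q2 c1 c2 s1 s2 hk
  obtain ⟨e'⟩ := Dc_ball d
  exact ⟨e.trans e'⟩

end main

end Pool.Agent.K9h74.NE
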