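import Mathlib
import Pool.Agent.Y364.E3.Tree
import Pool.Agent.H933R3.Bits
import Pool.Agent.Helper175.NS.Local

set_option autoImplicit false

/-!
# A 3-ball with a knotted spanning edge is not locally constructible

The complex `Bk` has 12 vertices and 36 tetrahedra; it is obtained from the 3-sphere with 13
vertices and 56 tetrahedra that contains a trefoil knot consisting of three edges (see
`Pool.Agent.Helper175.NS`) by removing the open star of a vertex of the knot.  The edge `{10, 11}`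
is a knotted spanning edge.  The functions `psi` and `col` (from `Pool.Agent.Helper175.NS.Local`)
describe a 3-fold covering space of the complement of this edge.
-/

namespace Pool.Agent.K9h74.NE

open Finset Pool.Agent.H933R3 Pool.Agent.Y364.E3 Pool.Agent.Helper175.NS

/-- the facets of the 3-ball, as bit masks (the facet with mask `m` consists of the `i` for which
the binary digit of `m` with weight `2 ^ i` is one) -/
def Bk : List ℕ := [15, 23, 75, 278, 329, 531, 579, 1037, 1068, 1176, 1185, 1192, 1218, 1232,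
  1289, 1298, 1304, 1409, 1410, 1554, 1602, 2069, 2097, 2122, 2160, 2200, 2242, 2256, 2324, 2328,
  2340, 2376, 2400, 3077, 3105, 3108]

/-- the vertices of the spanning edge -/
def KE (u : Fin 12) : Prop := u = 10 ∨ u = 11

instance : DecidablePred KE := fun u => by unfold KE; infer_instance

/-- the transition functions -/
def ps (u v : Fin 12) (c : Fin 3) : Fin 3 := psi u.val v.val c

/-- the invariant values near the spanning edge -/
def cl (u : Fin 12) : Fin 3 := col 11 u.val

/-- the spanning edge -/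
def ee : Finset (Fin 12) := {10, 11}

/-- local conditions on one facet -/
def GoodF (F : Finset (Fin 12)) : Prop :=
  F.card = 4 ∧ (∀ u ∈ F, ¬ KE u → ∀ c, ps u u c = c) ∧
  (∀ u ∈ F, ∀ v ∈ F, ∀ w ∈ F, ¬ KE u → ¬ KE v → ¬ KE w → ∀ c, ps v w (ps u v c) = ps u w c) ∧
  (ee ⊆ F → ∀ u ∈ F, ∀ v ∈ F, ¬ KE u → ¬ KE v → ps u v (cl u) = cl v)

theorem good_card : ∀ m ∈ Bk, (decF 12 m).card = 4 := by decide +kernel

theorem good_refl : ∀ m ∈ Bk, ∀ u ∈ decF 12 m, KE u ∨ ∀ c, ps u u c = c := by decide +kernel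

theorem good_coc : ∀ m ∈ Bk, ∀ u ∈ decF 12 m, ∀ v ∈ decF 12 m, ∀ w ∈ decF 12 m,
    KE u ∨ KE v ∨ KE w ∨ ∀ c, ps v w (ps u v c) = ps u w c := by decide +kernel

theorem good_col : ∀ m ∈ Bk, ¬ ee ⊆ decF 12 m ∨ ∀ u ∈ decF 12 m, ∀ v ∈ decF 12 m,
    KE u ∨ KE v ∨ ps u v (cl u) = cl v := by decide +kernel

theorem good_all' {m : ℕ} (hm : m ∈ Bk) : GoodF (decF 12 m) := by
  refine ⟨good_card m hm, fun u hu hK => (good_refl m hm u hu).resolve_left hK,
    fun u hu v hv w hw h1 h2 h3 => (((good_coc m hm u hu v hv w hw).resolve_left h1).resolve_left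
      h2).resolve_left h3, fun he u hu v hv h1 h2 => ?_⟩
  rcases good_col m hm with h | h
  · exact absurd he h
  · exact ((h u hu v hv).resolve_left h1).resolve_left h2

theorem facet_cx {F : Finset (Fin 12)} (h : IsFacet (cx 12 Bk) F) : ∃ m ∈ Bk, F = decF 12 m := by
  obtain ⟨m, hm, h1⟩ := mem_cx.1 h.1
  exact ⟨m, hm, (h.2 (decF 12 m) (mem_cx.2 ⟨m, hm, Subset.refl _⟩) h1).symm⟩

theorem goodF {F : Finset (Fin 12)} (h : IsFacet (cx 12 Bk) F) : GoodF F := by
  obtain ⟨m, hm, rfl⟩ := facet_cx h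
  exact good_all' hm

/-- a section: a value at every vertex outside the edge `ee` of every facet in `𝓕` -/
structure Sec (𝓕 G : Finset (Finset (Fin 12))) (g : Finset (Fin 12) → Fin 12 → Fin 3) : Prop where
  flat : ∀ F ∈ 𝓕, ∀ u ∈ F, ∀ v ∈ F, ¬ KE u → ¬ KE v → g F v = ps u v (g F u)
  glued : ∀ R ∈ G, ∀ F ∈ 𝓕, ∀ F' ∈ 𝓕, R ⊆ F → R ⊆ F' → ∀ u ∈ R, ¬ KE u → g F u = g F' u

theorem card_KE {R : Finset (Fin 12)} (h : 2 < R.card) : ∃ u ∈ R, ¬ KE u := by
  by_contra hc
  push Not at hc
  have h1 : R ⊆ ee := by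
    intro u hu
    rcases hc u hu with rfl | rfl
    · simp [ee]
    · simp [ee]
  have h2 := card_le_card h1
  have h3 : ee.card = 2 := by decide
  omega

theorem edge_KE {A : Finset (Fin 12)} (h : A.card = 2) (hne : A ≠ ee) : ∃ u ∈ A, ¬ KE u := by
  by_contra hc
  push Not at hc
  apply hne
  apply eq_of_subset_of_card_le
  · intro u hu
    rcases hc u hu with rfl | rfl
    · simp [ee]
    · simp [ee]
  · rw [h]; decide

theorem Sec.chain {𝓕 G : Finset (Finset (Fin 12))} {g : Finset (Fin 12) → Fin 12 → Fin 3}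
    (hg : Sec 𝓕 G g) {A F F' : Finset (Fin 12)} (hs : SameFace 𝓕 G A F F') {u : Fin 12}
    (hu : u ∈ A) (hK : ¬ KE u) : g F u = g F' u := by
  induction hs with
  | refl => rfl
  | tail _ h ih =>
    obtain ⟨h1, h2, R, hR, hA, h3, h4⟩ := h
    rw [ih]
    exact hg.glued R hR _ h1 _ h2 h3 h4 u (hA hu) hK

/-- every ridge used in a tree of simplices lies in two different facets -/
theorem tree_two {𝓕 T : Finset (Finset (Fin 12))} {K : Finset (Finset (Fin 12))}
    (h : TreeStage 3 K 𝓕 T) : (∀ F ∈ 𝓕, IsFacet K F) ∧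
      ∀ R ∈ T, ∃ X ∈ 𝓕, ∃ Y ∈ 𝓕, X ≠ Y ∧ R ⊆ X ∧ R ⊆ Y ∧ R.card = 3 := by
  induction h with
  | start F hF =>
    refine ⟨fun X hX => ?_, fun R hR => absurd hR (notMem_empty R)⟩
    rw [mem_singleton.1 hX]
    exact hF
  | attach 𝓕 T F F' R h hF hF' hn hR h1 h2 hT ih =>
    refine ⟨fun X hX => ?_, fun R' hR' => ?_⟩
    · rcases mem_insert.1 hX with rfl | hX
      · exact hF'
      · exact ih.1 X hX
    · rcases mem_insert.1 hR' with rfl | hR'
      · exact ⟨F, mem_insert_of_mem hF, F', mem_insert_self _ _, fun (e : F = F') => hn (e ▸ hF), h1,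
          h2, hR⟩
      · obtain ⟨X, hX, Y, hY, h3, h4, h5, h6⟩ := ih.2 R' hR'
        exact ⟨X, mem_insert_of_mem hX, Y, mem_insert_of_mem hY, h3, h4, h5, h6⟩

/-- sections over a tree of simplices with a prescribed value -/
theorem tree_sec (h2 : AtMostTwo 3 (cx 12 Bk)) {𝓕 T : Finset (Finset (Fin 12))}
    (h : TreeStage 3 (cx 12 Bk) 𝓕 T) : ∀ F₀ ∈ 𝓕, ∀ u₀ ∈ F₀, ¬ KE u₀ → ∀ c : Fin 3,
      ∃ g, Sec 𝓕 T g ∧ g F₀ u₀ = c := by
  induction h with
  | start F hF =>
    intro F₀ hF₀ u₀ hu₀ hK c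
    have e := mem_singleton.1 hF₀
    subst e
    obtain ⟨-, g1, g2, -⟩ := goodF hF
    refine ⟨fun _ v => ps u₀ v c, ⟨?_, fun R hR => absurd hR (notMem_empty R)⟩, g1 u₀ hu₀ hK c⟩
    intro X hX u hu v hv hKu hKv
    have e := mem_singleton.1 hX
    subst e
    exact (g2 u₀ hu₀ u hu v hv hK hKu hKv c).symm
  | attach 𝓕 T F F' R h hF hF' hn hR h1 h2' hT ih =>
    have hst := tree_two h
    obtain ⟨-, g1, g2, -⟩ := goodF hF'
    obtain ⟨u₁, hu₁, hK₁⟩ := card_KE (R := R) (by omega)
    have hneF : F ≠ F' := fun (e : F = F') => hn (e ▸ hF)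
    -- extension of a section to the new facet
    have ext : ∀ g, Sec 𝓕 T g → Sec (insert F' 𝓕) (insert R T)
        (Function.update g F' (fun v => ps u₁ v (g F u₁))) := by
      intro g hg
      have hold : ∀ X ∈ 𝓕, Function.update g F' (fun v => ps u₁ v (g F u₁)) X = g X := by
        intro X hX
        exact Function.update_of_ne (fun (e : X = F') => hn (e ▸ hX)) _ _
      have hnew : Function.update g F' (fun v => ps u₁ v (g F u₁)) F' =
          fun v => ps u₁ v (g F u₁) := Function.update_self _ _ _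
      refine ⟨?_, ?_⟩
      · intro X hX u hu v hv hKu hKv
        rcases mem_insert.1 hX with rfl | hX
        · rw [hnew]
          exact (g2 u₁ (h2' hu₁) u hu v hv hK₁ hKu hKv _).symm
        · rw [hold X hX]
          exact hg.flat X hX u hu v hv hKu hKv
      · intro R' hR' X hX Y hY h3 h4 u hu hKu
        rcases mem_insert.1 hR' with rfl | hR'
        · -- the ridge `R'`: only `F` and `F'` contain it
          have hval : ∀ Z ∈ insert F' 𝓕, R' ⊆ Z →
              Function.update g F' (fun v => ps u₁ v (g F u₁)) Z u = g F u := by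
            intro Z hZ h5
            have hZf : IsFacet (cx 12 Bk) Z := by
              rcases mem_insert.1 hZ with rfl | hZ
              · exact hF'
              · exact hst.1 Z hZ
            rcases h2 R' hR F F' Z (hst.1 F hF) hF' hZf h1 h2' h5 with h6 | h6 | h6
            · exact absurd h6 hneF
            · rw [← h6, hold F hF]
            · rw [← h6, hnew]
              exact (hg.flat F hF u₁ (h1 hu₁) u (h1 hu) hK₁ hKu).symm
          rw [hval X hX h3, hval Y hY h4]
        · obtain ⟨P, hP, Q, hQ, h5, h6, h7, h8⟩ := hst.2 R' hR'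
          have hmem : ∀ Z ∈ insert F' 𝓕, R' ⊆ Z → Z ∈ 𝓕 := by
            intro Z hZ h9
            rcases mem_insert.1 hZ with rfl | hZ
            · rcases h2 R' h8 P Q Z (hst.1 P hP) (hst.1 Q hQ) hF' h6 h7 h9 with e | e | e
              · exact absurd e h5
              · exact e ▸ hP
              · exact e ▸ hQ
            · exact hZ
          have hX' := hmem X hX h3
          have hY' := hmem Y hY h4
          rw [hold X hX', hold Y hY']
          exact hg.glued R' hR' X hX' Y hY' h3 h4 u hu hKu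
    intro F₀ hF₀ u₀ hu₀ hK c
    rcases mem_insert.1 hF₀ with rfl | hF₀
    · obtain ⟨g, hg, hgc⟩ := ih F hF u₁ (h1 hu₁) hK₁ (ps u₀ u₁ c)
      refine ⟨_, ext g hg, ?_⟩
      rw [Function.update_self, hgc, g2 u₀ hu₀ u₁ (h2' hu₁) u₀ hu₀ hK hK₁ hK]
      exact g1 u₀ hu₀ hK c
    · obtain ⟨g, hg, hgc⟩ := ih F₀ hF₀ u₀ hu₀ hK c
      refine ⟨_, ext g hg, ?_⟩
      rw [Function.update_of_ne (fun (e : F₀ = F') => hn (e ▸ hF₀))]
      exact hgc

/-- the facets containing the spanning edge -/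
theorem facets_ee : ∀ m ∈ Bk, ee ⊆ decF 12 m →
    decF 12 m = {0, 2, 10, 11} ∨ decF 12 m = {0, 5, 10, 11} ∨ decF 12 m = {2, 5, 10, 11} := by
  decide +kernel

theorem ridge_of {F R : Finset (Fin 12)} {x y : Fin 12} (hF : F = {x, y, 10, 11}) (hR : R.card = 3)
    (h1 : ee ⊆ R) (h2 : R ⊆ F) : R = {x, 10, 11} ∨ R = {y, 10, 11} := by
  subst hF
  have h11 : (10 : Fin 12) ∈ R := h1 (by simp [ee])
  have h12 : (11 : Fin 12) ∈ R := h1 (by simp [ee])
  have hne : (10 : Fin 12) ≠ 11 := by decide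
  by_cases hx : x ∈ R ∧ x ≠ 10 ∧ x ≠ 11
  · left
    symm
    apply eq_of_subset_of_card_le
    · intro u hu
      simp only [mem_insert, mem_singleton] at hu
      rcases hu with rfl | rfl | rfl
      · exact hx.1
      · exact h11
      · exact h12
    · rw [hR, card_insert_of_notMem, card_pair hne]
      simp only [mem_insert, mem_singleton, not_or]
      exact hx.2
  · right
    apply eq_of_subset_of_card_le
    · intro u hu
      have h3 := h2 hu
      simp only [mem_insert, mem_singleton] at h3 ⊢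
      rcases h3 with rfl | rfl | rfl | rfl
      · by_cases h4 : u = 10
        · exact Or.inr (Or.inl h4)
        · by_cases h5 : u = 11
          · exact Or.inr (Or.inr h5)
          · exact absurd ⟨hu, h4, h5⟩ hx
      · exact Or.inl rfl
      · exact Or.inr (Or.inl rfl)
      · exact Or.inr (Or.inr rfl)
    · rw [hR]
      exact (card_insert_le _ _).trans (by rw [card_pair hne])

/-- if two facets around the spanning edge are connected by ridges other than their common ridge,
then all the other ridges around the edge are glued -/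
theorem circle {𝓕 G : Finset (Finset (Fin 12))} {F F' R : Finset (Fin 12)}
    (hfac : ∀ X ∈ 𝓕, IsFacet (cx 12 Bk) X) (hcard : ∀ X ∈ G, X.card = 3)
    (hF : F ∈ 𝓕) (hF' : F' ∈ 𝓕) (hne : F ≠ F') (hR : R.card = 3) (he : ee ⊆ R) (h1 : R ⊆ F)
    (h2 : R ⊆ F') (hG : R ∉ G) (hs : SameFace 𝓕 G ee F F') :
    ∀ S : Finset (Fin 12), S.card = 3 → ee ⊆ S → ∀ X ∈ 𝓕, S ⊆ X → S ∈ insert R G := by
  -- a glued ridge around the edge in `F`, and one in `F'`
  obtain ⟨R₁, hR₁, he₁, h₁⟩ : ∃ R₁ ∈ G, ee ⊆ R₁ ∧ R₁ ⊆ F := by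
    rcases Relation.ReflTransGen.cases_head hs with h3 | ⟨Y, ⟨_, _, R', hR', hA', h4, _⟩, _⟩
    · exact absurd h3 hne
    · exact ⟨R', hR', hA', h4⟩
  obtain ⟨R₂, hR₂, he₂, h₂⟩ : ∃ R₂ ∈ G, ee ⊆ R₂ ∧ R₂ ⊆ F' := by
    rcases Relation.ReflTransGen.cases_tail hs with h3 | ⟨Y, _, ⟨_, _, R', hR', hA', _, h4⟩⟩
    · exact absurd h3.symm hne
    · exact ⟨R', hR', hA', h4⟩
  have hn₁ : R₁ ≠ R := fun e => hG (e ▸ hR₁)
  have hn₂ : R₂ ≠ R := fun e => hG (e ▸ hR₂)
  have hc₁ := hcard R₁ hR₁
  have hc₂ := hcard R₂ hR₂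
  have hthree : ∀ X ∈ 𝓕, ee ⊆ X → X = {0, 2, 10, 11} ∨ X = {0, 5, 10, 11} ∨ X = {2, 5, 10, 11} := by
    intro X hX h
    obtain ⟨m, hm, rfl⟩ := facet_cx (hfac X hX)
    exact facets_ee m hm h
  -- the ridges
  have hr : ∀ X ∈ 𝓕, ∀ S : Finset (Fin 12), S.card = 3 → ee ⊆ S → S ⊆ X →
      S = {0, 10, 11} ∨ S = {2, 10, 11} ∨ S = {5, 10, 11} := by
    intro X hX S hS h3 h4
    rcases hthree X hX (h3.trans h4) with h5 | h5 | h5
    · rcases ridge_of h5 hS h3 h4 with h6 | h6
      · exact Or.inl h6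
      · exact Or.inr (Or.inl h6)
    · rcases ridge_of h5 hS h3 h4 with h6 | h6
      · exact Or.inl h6
      · exact Or.inr (Or.inr h6)
    · rcases ridge_of h5 hS h3 h4 with h6 | h6
      · exact Or.inr (Or.inl h6)
      · exact Or.inr (Or.inr h6)
  -- `R₁ ≠ R₂`, since otherwise `F` and `F'` have a common ridge different from `R`
  have h12 : R₁ ≠ R₂ := by
    intro e
    subst e
    apply hne
    apply eq_of_subset_of_card_le
    · -- `R ∪ R₁` has four elements
      have h3 : R ∪ R₁ ⊆ F := union_subset h1 h₁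
      have h4 : R ∪ R₁ ⊆ F' := union_subset h2 h₂
      have h5 : 3 < (R ∪ R₁).card := by
        rw [← hR]
        apply card_lt_card
        rw [ssubset_iff_subset_ne]
        refine ⟨subset_union_left, fun h => hn₁ ?_⟩
        apply eq_of_subset_of_card_le
        · rw [h]; exact subset_union_right
        · rw [hR, hc₁]
      have h6 : F = R ∪ R₁ := by
        symm
        apply eq_of_subset_of_card_le h3
        rw [(goodF (hfac F hF)).1]
        omega
      rw [h6]
      exact h4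
    · rw [(goodF (hfac F hF)).1, (goodF (hfac F' hF')).1]
  intro S hS hSe X hX hSX
  have a0 := hr F hF R hR he h1
  have a1 := hr F hF R₁ hc₁ he₁ h₁
  have a2 := hr F' hF' R₂ hc₂ he₂ h₂
  have a3 := hr X hX S hS hSe hSX
  rw [mem_insert]
  by_cases e0 : S = R
  · exact Or.inl e0
  · right
    by_cases e1 : S = R₁
    · exact e1 ▸ hR₁
    · have e2 : S = R₂ := by
        rcases a3 with a3 | a3 | a3 <;> rcases a0 with a0 | a0 | a0 <;>
          rcases a1 with a1 | a1 | a1 <;> rcases a2 with a2 | a2 | a2 <;>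
          first
          | (exact a3.trans a2.symm)
          | (exact absurd (a3.trans a0.symm) e0)
          | (exact absurd (a3.trans a1.symm) e1)
          | (exact absurd (a1.trans a0.symm) hn₁)
          | (exact absurd (a2.trans a0.symm) hn₂)
          | (exact absurd (a1.trans a2.symm) h12)
      exact e2 ▸ hR₂

/-- the alternative for the sections in the course of the gluings -/
def Alt (𝓕 G : Finset (Finset (Fin 12))) : Prop :=
  (∀ F₀ ∈ 𝓕, ∀ u₀ ∈ F₀, ¬ KE u₀ → ∀ c : Fin 3, ∃ g, Sec 𝓕 G g ∧ g F₀ u₀ = c) ∨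
  ((∃ g, Sec 𝓕 G g) ∧ ∀ S : Finset (Fin 12), S.card = 3 → ee ⊆ S → ∀ X ∈ 𝓕, S ⊆ X → S ∈ G)

theorem glue_sec (h2 : AtMostTwo 3 (cx 12 Bk)) {𝓕 T G : Finset (Finset (Fin 12))}
    (hT : TreeStage 3 (cx 12 Bk) 𝓕 T) (h : GlueStage 3 𝓕 T G) :
    (∀ R ∈ G, R.card = 3) ∧ Alt 𝓕 G := by
  have hfac := (tree_two hT).1
  induction h with
  | start =>
    refine ⟨fun R hR => ?_, Or.inl (tree_sec h2 hT)⟩
    obtain ⟨X, _, Y, _, _, _, _, h3⟩ := (tree_two hT).2 R hR
    exact h3
  | glue G F F' R A h hF hF' hne hR h1 h2' hG hA hAR hs ih =>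
    obtain ⟨hcard, halt⟩ := ih
    refine ⟨fun X hX => ?_, ?_⟩
    · rcases mem_insert.1 hX with rfl | hX
      · exact hR
      · exact hcard X hX
    -- a section that agrees on `R` extends to the new stage
    have ext : ∀ g, Sec 𝓕 G g → (∀ u ∈ R, ¬ KE u → g F u = g F' u) → Sec 𝓕 (insert R G) g := by
      intro g hg hgR
      refine ⟨hg.flat, ?_⟩
      intro R' hR' X hX Y hY h3 h4 u hu hKu
      rcases mem_insert.1 hR' with rfl | hR'
      · have hval : ∀ Z ∈ 𝓕, R' ⊆ Z → g Z u = g F u := by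
          intro Z hZ h5
          rcases h2 R' hR F F' Z (hfac F hF) (hfac F' hF') (hfac Z hZ) h1 h2' h5 with e | e | e
          · exact absurd e hne
          · rw [e]
          · rw [← e]
            exact (hgR u hu hKu).symm
        rw [hval X hX h3, hval Y hY h4]
      · exact hg.glued R' hR' X hX Y hY h3 h4 u hu hKu
    by_cases hAe : A = ee
    · subst hAe
      rcases halt with halt | ⟨_, hall⟩
      · right
        refine ⟨?_, circle hfac hcard hF hF' hne hR hAR h1 h2' hG hs⟩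
        obtain ⟨u, hu, hKu⟩ := card_KE (R := R) (by omega)
        obtain ⟨g, hg, hgu⟩ := halt F hF u (h1 hu) hKu (cl u)
        refine ⟨g, ext g hg ?_⟩
        -- the section has the invariant values along the chain
        have hchain : ∀ Y, SameFace 𝓕 G ee F Y → Y ∈ 𝓕 → ∀ w ∈ Y, ¬ KE w → g Y w = cl w := by
          intro Y hY
          induction hY with
          | refl =>
            intro _ w hw hKw
            rw [hg.flat F hF u (h1 hu) w hw hKu hKw, hgu]
            exact (goodF (hfac F hF)).2.2.2 (hAR.trans h1) u (h1 hu) w hw hKu hKw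
          | tail _ h5 ih5 =>
            intro hY w hw hKw
            obtain ⟨h6, h7, S, hS, hSe, h8, h9⟩ := h5
            obtain ⟨z, hz, hKz⟩ := card_KE (R := S) (by have := hcard S hS; omega)
            have h10 := ih5 h6 z (h8 hz) hKz
            have h11 := hg.glued S hS _ h6 _ h7 h8 h9 z hz hKz
            rw [hg.flat _ h7 z (h9 hz) w hw hKz hKw, ← h11, h10]
            exact (goodF (hfac _ h7)).2.2.2 (hSe.trans h9) z (h9 hz) w hw hKz hKw
        intro w hw hKw
        rw [hchain F Relation.ReflTransGen.refl hF w (h1 hw) hKw,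
          hchain F' hs hF' w (h2' hw) hKw]
      · exact absurd (hall R hR hAR F hF h1) hG
    · obtain ⟨u, hu, hKu⟩ := edge_KE (by omega) hAe
      have hext : ∀ g, Sec 𝓕 G g → Sec 𝓕 (insert R G) g := by
        intro g hg
        apply ext g hg
        intro w hw hKw
        rw [hg.flat F hF u (h1 (hAR hu)) w (h1 hw) hKu hKw,
          hg.flat F' hF' u (h2' (hAR hu)) w (h2' hw) hKu hKw, hg.chain hs hu hKu]
      rcases halt with halt | ⟨⟨g, hg⟩, hall⟩
      · left
        intro F₀ hF₀ u₀ hu₀ hK c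
        obtain ⟨g, hg, hgc⟩ := halt F₀ hF₀ u₀ hu₀ hK c
        exact ⟨g, hext g hg, hgc⟩
      · right
        exact ⟨⟨g, hext g hg⟩, fun S hS hSe X hX hSX =>
          mem_insert_of_mem (hall S hS hSe X hX hSX)⟩

theorem isFacet_cx {m : ℕ} (hm : m ∈ Bk) : IsFacet (cx 12 Bk) (decF 12 m) := by
  refine ⟨mem_cx.2 ⟨m, hm, Subset.refl _⟩, fun X hX h => ?_⟩
  obtain ⟨m', hm', h'⟩ := mem_cx.1 hX
  symm
  apply eq_of_subset_of_card_le h
  rw [(good_all' hm).1, ← (good_all' hm').1]
  exact card_le_card h'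

/-- the 3-ball is not locally constructible -/
theorem not_isTreeLC : ¬ IsTreeLC 3 (cx 12 Bk) := by
  rintro ⟨-, h2, 𝓕, T, G, hT, hG, hF, hA⟩
  obtain ⟨-, halt⟩ := glue_sec h2 hT hG
  obtain ⟨g, hg⟩ : ∃ g, Sec 𝓕 G g := by
    rcases halt with halt | ⟨h, _⟩
    · obtain ⟨g, hg, _⟩ := halt (decF 12 15) (hF _ (isFacet_cx (by decide))) 0 (by decide)
        (by decide) 0
      exact ⟨g, hg⟩
    · exact h
  have key : ∀ u : Fin 12, ¬ KE u → ∀ m ∈ Bk, ∀ m' ∈ Bk, u ∈ decF 12 m → u ∈ decF 12 m' →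
      g (decF 12 m) u = g (decF 12 m') u := by
    intro u hKu m hm m' hm' h3 h4
    have h5 := hA {u} (mem_cx.2 ⟨m, hm, singleton_subset_iff.2 h3⟩) _ (hF _ (isFacet_cx hm)) _
      (hF _ (isFacet_cx hm')) (singleton_subset_iff.2 h3) (singleton_subset_iff.2 h4)
    exact hg.chain h5 (mem_singleton_self u) hKu
  have e1 := hg.flat (decF 12 15) (hF _ (isFacet_cx (by decide))) 2 (by decide) 3 (by decide)
    (by decide) (by decide)
  have e2 := hg.flat (decF 12 1176) (hF _ (isFacet_cx (by decide))) 3 (by decide) 4 (by decide)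
    (by decide) (by decide)
  have e3 := hg.flat (decF 12 23) (hF _ (isFacet_cx (by decide))) 2 (by decide) 4 (by decide)
    (by decide) (by decide)
  have k1 := key 3 (by decide) 15 (by decide) 1176 (by decide) (by decide) (by decide)
  have k2 := key 2 (by decide) 15 (by decide) 23 (by decide) (by decide) (by decide)
  have k3 := key 4 (by decide) 1176 (by decide) 23 (by decide) (by decide) (by decide)
  rw [← k1, e1, k2, k3, e3] at e2
  generalize g (decF 12 23) 2 = a at e2
  revert a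
  decide

theorem not_isLC : ¬ IsLC 3 (cx 12 Bk) := fun h => not_isTreeLC (isTreeLC_of_isLC h)

end Pool.Agent.K9h74.NE
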