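import Mathlib
import Pool.Agent.K9h74.NE.Knot
import Pool.Agent.H933R3.Ball

set_option autoImplicit false

/-!
# The complex `cx 12 Bk` is a 3-ball

A chain of 24 bistellar moves (moves that have a common stellar subdivision) transforms the complex
to a tetrahedron.
-/

namespace Pool.Agent.K9h74.NE

open Finset Pool.Agent.H933R3 Pool.Agent.Helper175.NS

/-- the moves `(ρ, ρ', l)`: the complex `l` is obtained by replacing the face `ρ` by the face
`ρ'` -/
def moves : List (ℕ × ℕ × List ℕ) := [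
  (3072, 37, [15, 23, 75, 278, 329, 531, 579, 1037, 1061, 1068, 1176, 1185, 1192, 1218, 1232,
    1289, 1298, 1304, 1409, 1410, 1554, 1602, 2069, 2085, 2097, 2122, 2160, 2200, 2242, 2256,
    2324, 2328, 2340, 2376, 2400]),
  (2049, 52, [15, 23, 53, 75, 278, 329, 531, 579, 1037, 1061, 1068, 1176, 1185, 1192, 1218,
    1232, 1289, 1298, 1304, 1409, 1410, 1554, 1602, 2100, 2122, 2160, 2200, 2242, 2256, 2324,
    2328, 2340, 2376, 2400]),
  (2052, 304, [15, 23, 53, 75, 278, 308, 329, 531, 579, 1037, 1061, 1068, 1176, 1185, 1192,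
    1218, 1232, 1289, 1298, 1304, 1409, 1410, 1554, 1602, 2122, 2160, 2200, 2242, 2256, 2328,
    2352, 2376, 2400]),
  (2080, 336, [15, 23, 53, 75, 278, 308, 329, 368, 531, 579, 1037, 1061, 1068, 1176, 1185, 1192,
    1218, 1232, 1289, 1298, 1304, 1409, 1410, 1554, 1602, 2122, 2200, 2242, 2256, 2328, 2376,
    2384]),
  (2304, 88, [15, 23, 53, 75, 278, 308, 329, 344, 368, 531, 579, 1037, 1061, 1068, 1176, 1185,
    1192, 1218, 1232, 1289, 1298, 1304, 1409, 1410, 1554, 1602, 2122, 2136, 2200, 2242, 2256]),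
  (2064, 200, [15, 23, 53, 75, 216, 278, 308, 329, 344, 368, 531, 579, 1037, 1061, 1068, 1176,
    1185, 1192, 1218, 1232, 1289, 1298, 1304, 1409, 1410, 1554, 1602, 2122, 2242, 2248]),
  (144, 1096, [15, 23, 53, 75, 278, 308, 329, 344, 368, 531, 579, 1037, 1061, 1068, 1112, 1185,
    1192, 1218, 1224, 1289, 1298, 1304, 1409, 1410, 1554, 1602, 2122, 2242, 2248]),
  (2048, 138, [15, 23, 53, 75, 202, 278, 308, 329, 344, 368, 531, 579, 1037, 1061, 1068, 1112,
    1185, 1192, 1218, 1224, 1289, 1298, 1304, 1409, 1410, 1554, 1602]),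
  (24, 1344, [15, 23, 53, 75, 202, 278, 308, 329, 368, 531, 579, 1037, 1061, 1068, 1185, 1192,
    1218, 1224, 1289, 1298, 1352, 1360, 1409, 1410, 1554, 1602]),
  (264, 1089, [15, 23, 53, 75, 202, 278, 308, 368, 531, 579, 1037, 1061, 1068, 1097, 1185, 1192,
    1218, 1224, 1298, 1345, 1360, 1409, 1410, 1554, 1602]),
  (9, 68, [23, 53, 71, 78, 202, 278, 308, 368, 531, 579, 1061, 1068, 1093, 1100, 1185, 1192,
    1218, 1224, 1298, 1345, 1360, 1409, 1410, 1554, 1602]),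
  (8, 132, [23, 53, 71, 198, 278, 308, 368, 531, 579, 1061, 1093, 1185, 1188, 1218, 1220, 1298,
    1345, 1360, 1409, 1410, 1554, 1602]),
  (192, 1030, [23, 53, 71, 278, 308, 368, 531, 579, 1061, 1093, 1094, 1158, 1185, 1188, 1298,
    1345, 1360, 1409, 1410, 1554, 1602]),
  (68, 1027, [23, 53, 278, 308, 368, 531, 579, 1031, 1061, 1091, 1158, 1185, 1188, 1298, 1345,
    1360, 1409, 1410, 1554, 1602]),
  (4, 34, [51, 306, 368, 531, 579, 1059, 1091, 1185, 1186, 1298, 1345, 1360, 1409, 1410, 1554,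
    1602]),
  (66, 1537, [51, 306, 368, 531, 1059, 1185, 1186, 1298, 1345, 1360, 1409, 1410, 1539, 1554,
    1601]),
  (514, 1041, [51, 306, 368, 1043, 1059, 1185, 1186, 1298, 1345, 1360, 1409, 1410, 1553, 1601]),
  (3, 1072, [306, 368, 1073, 1074, 1185, 1186, 1298, 1345, 1360, 1409, 1410, 1553, 1601]),
  (128, 3, [306, 368, 1059, 1073, 1074, 1283, 1298, 1345, 1360, 1553, 1601]),
  (256, 66, [114, 1059, 1073, 1074, 1091, 1106, 1553, 1601]),
  (18, 1120, [1059, 1073, 1091, 1122, 1136, 1553, 1601]),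
  (2, 97, [1073, 1121, 1136, 1553, 1601]),
  (32, 81, [1105, 1553, 1601]),
  (1024, 592, [593])]

/-- the stellar subdivisions of `l` at `ρ` and of `l'` at `ρ'` coincide -/
def okC (l l' : List ℕ) (ρ ρ' : ℕ) : Bool :=
  sameB (starB l ρ 13) (starB l' ρ' 13) && l'.all (fun m => decide (m < 8192)) &&
    decide (0 < ρ) && decide (ρ < 8192) && decide (0 < ρ') && decide (ρ' < 8192)

def chainC : List ℕ → List (ℕ × ℕ × List ℕ) → Bool
  | l, [] => decide (l = [593])
  | l, r :: ms => okC l r.2.2 r.1 r.2.1 && chainC r.2.2 ms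

theorem dec_nonempty {ρ : ℕ} (h0 : 0 < ρ) (h1 : ρ < 8192) : (dec ρ).Nonempty := by
  by_contra hcon
  rw [not_nonempty_iff_eq_empty] at hcon
  have h2 : ρ = 0 := by
    apply Nat.eq_of_testBit_eq
    intro i
    rw [Nat.zero_testBit]
    by_contra h4
    rw [Bool.not_eq_false] at h4
    have h5 : i < 14 := by
      by_contra h6
      rw [Nat.testBit_eq_false_of_lt (by
        calc ρ < 2 ^ 13 := by norm_num; exact h1
          _ ≤ 2 ^ i := Nat.pow_le_pow_right (by norm_num) (by omega))] at h4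
      exact absurd h4 (by decide)
    have : i ∈ dec ρ := mem_dec.2 ⟨h5, h4⟩
    rw [hcon] at this
    exact absurd this (notMem_empty i)
  omega

theorem chainC_homeo (ms : List (ℕ × ℕ × List ℕ)) : ∀ l : List ℕ, (∀ m ∈ l, m < 8192) →
    chainC l ms = true → Nonempty (Sp (decL l) ≃ₜ Sp (decL [593])) := by
  induction ms with
  | nil =>
    intro l _ h
    rw [chainC, decide_eq_true_eq] at h
    rw [h]
    exact ⟨Homeomorph.refl _⟩
  | cons r ms ih =>
    intro l hl h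
    rw [chainC, Bool.and_eq_true] at h
    obtain ⟨h1, h2⟩ := h
    simp only [okC, Bool.and_eq_true, decide_eq_true_eq, List.all_eq_true] at h1
    obtain ⟨⟨⟨⟨⟨h3, h4⟩, h5⟩, h6⟩, h7⟩, h8⟩ := h1
    obtain ⟨e1⟩ := ih r.2.2 h4 h2
    have h13 : ∀ l' : List ℕ, (∀ m ∈ l', m < 8192) → ∀ β ∈ decL l', 13 ∉ β := by
      intro l' hl' β hβ hmem
      obtain ⟨m, hm, rfl⟩ := mem_decL.1 hβ
      have := dec_lt (hl' m hm) 13 hmem
      omega
    have heq : star (decL l) (dec r.1) 13 = star (decL r.2.2) (dec r.2.1) 13 := by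
      rw [← decL_starB l r.1 h6, ← decL_starB _ r.2.1 h8]
      exact decL_of_sameB h3
    obtain ⟨e2⟩ := star_homeo (decL l) (dec r.1) 13 (dec_nonempty h5 h6) (h13 l hl)
      (fun h => by have := dec_lt h6 13 h; omega)
    obtain ⟨e3⟩ := star_homeo (decL r.2.2) (dec r.2.1) 13 (dec_nonempty h7 h8) (h13 _ h4)
      (fun h => by have := dec_lt h8 13 h; omega)
    rw [← heq] at e3
    exact ⟨(e2.symm.trans e3).trans e1⟩

theorem Bk_small : ∀ m ∈ Bk, m < 8192 := by decide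

theorem Bk_dec : ∀ m ∈ Bk, ∀ k ∈ dec m, k < 12 := by decide +kernel

theorem chain_ok' : chainC Bk moves = true := by decide +kernel

theorem Bk_ball : Nonempty (Sp (decL Bk) ≃ₜ Metric.closedBall (0 : EuclideanSpace ℝ (Fin 3)) 1) := by
  obtain ⟨e⟩ := chainC_homeo moves Bk Bk_small chain_ok'
  obtain ⟨e4⟩ := simplex_ball (dec 593) 3 (by decide)
  have h1 : decL [593] = {dec 593} := rfl
  rw [h1] at e
  exact ⟨e.trans e4⟩

/-- the set of facets -/
def Gk : Finset (Finset (Fin 12)) := (Bk.map (decF 12)).toFinset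

theorem mem_Gk {F : Finset (Fin 12)} : F ∈ Gk ↔ ∃ m ∈ Bk, decF 12 m = F := by
  rw [Gk, List.mem_toFinset, List.mem_map]

theorem image_val {m : ℕ} (hm : m ∈ Bk) : (decF 12 m).image Fin.val = dec m := by
  ext k
  rw [mem_image]
  constructor
  · rintro ⟨i, hi, rfl⟩
    rw [mem_decF] at hi
    exact mem_dec.2 ⟨by have := i.2; omega, hi⟩
  · intro hk
    have h2 := Bk_dec m hm _ hk
    refine ⟨⟨k, h2⟩, ?_, rfl⟩
    rw [mem_decF]
    rw [mem_dec] at hk
    exact hk.2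

theorem Gk_image : Gk.image (fun F => F.image Fin.val) = decL Bk := by
  ext A
  rw [mem_image, mem_decL]
  constructor
  · rintro ⟨F, hF, rfl⟩
    obtain ⟨m, hm, rfl⟩ := mem_Gk.1 hF
    exact ⟨m, hm, (image_val hm).symm⟩
  · rintro ⟨m, hm, rfl⟩
    exact ⟨decF 12 m, mem_Gk.2 ⟨m, hm, rfl⟩, image_val hm⟩

theorem Gk_ball : Nonempty (Sp Gk ≃ₜ Metric.closedBall (0 : EuclideanSpace ℝ (Fin 3)) 1) := by
  obtain ⟨e1⟩ := relabel_homeo Gk (Fin.val : Fin 12 → ℕ) univ (fun F _ => subset_univ F)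
    (Fin.val_injective.injOn)
  rw [Gk_image] at e1
  obtain ⟨e2⟩ := Bk_ball
  exact ⟨e1.symm.trans e2⟩

theorem realization_eq : realization (cx 12 Bk) = Sp Gk := by
  ext x
  constructor
  · rintro ⟨h0, h1, σ, hσ, h2⟩
    obtain ⟨m, hm, h3⟩ := mem_cx.1 hσ
    refine ⟨h0, decF 12 m, mem_Gk.2 ⟨m, hm, rfl⟩, fun i hi => h2 i (fun h => hi (h3 h)), ?_⟩
    rw [← h1]
    exact sum_subset (subset_univ _) (fun i _ hi => h2 i (fun h => hi (h3 h)))
  · rintro ⟨h0, F, hF, h1, h2⟩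
    obtain ⟨m, hm, rfl⟩ := mem_Gk.1 hF
    refine ⟨h0, ?_, decF 12 m, mem_cx.2 ⟨m, hm, Subset.refl _⟩, h1⟩
    rw [← h2]
    exact (sum_subset (subset_univ _) (fun i _ hi => h1 i hi)).symm

/-- the complex is a 3-ball -/
theorem isBall_Bk : IsBall 3 (cx 12 Bk) := by
  obtain ⟨e⟩ := Gk_ball
  exact ⟨(Homeomorph.setCongr realization_eq).trans e⟩

end Pool.Agent.K9h74.NE
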