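import Mathlib
import Pool.Agent.K9h74.NE.Cone

set_option autoImplicit false

/-!
# If a cone is locally constructible then so is its base
-/

namespace Pool.Agent.K9h74.NE

open Finset Pool.Agent.H933R3

variable {n d : ℕ} {K : Finset (Finset (Fin n))}

theorem isFacet_cone {F : Finset (Fin (n + 1))} :
    IsFacet (cone K) F ↔ 0 ∈ F ∧ IsFacet K (down F) := by
  constructor
  · rintro ⟨h1, h2⟩
    have h0 : 0 ∈ F := by
      have := h2 (insert 0 F) (by rw [mem_cone, down_insert]; exact mem_cone.1 h1)
        (subset_insert _ _)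
      rw [← this]
      exact mem_insert_self _ _
    refine ⟨h0, mem_cone.1 h1, fun G hG hFG => ?_⟩
    have h3 : F ⊆ insert 0 (lift G) := by
      intro i hi
      refine Fin.cases (fun _ => mem_insert_self _ _) (fun i hi => ?_) i hi
      exact mem_insert_of_mem (succ_mem_lift.2 (hFG (mem_down.2 hi)))
    have h4 := h2 (insert 0 (lift G)) (by rw [mem_cone, down_insert, down_lift]; exact hG) h3
    rw [← h4, down_insert, down_lift]
  · rintro ⟨h0, h1, h2⟩
    refine ⟨mem_cone.2 h1, fun G hG hFG => ?_⟩
    have h3 := h2 (down G) (mem_cone.1 hG) (down_mono hFG)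
    have h4 : insert 0 (lift (down G)) = insert 0 (lift (down F)) := by rw [h3]
    rw [insert_lift_down, insert_lift_down, insert_eq_of_mem h0, insert_eq_of_mem (hFG h0)] at h4
    exact h4

theorem down_injOn {σ τ : Finset (Fin (n + 1))} (hσ : 0 ∈ σ) (hτ : 0 ∈ τ)
    (h : down σ = down τ) : σ = τ := by
  have h4 : insert 0 (lift (down σ)) = insert 0 (lift (down τ)) := by rw [h]
  rwa [insert_lift_down, insert_lift_down, insert_eq_of_mem hσ, insert_eq_of_mem hτ] at h4

/-- invariants of a stage of a local construction of a cone -/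
structure Inv (d : ℕ) (K : Finset (Finset (Fin n))) (𝓕 G : Finset (Finset (Fin (n + 1)))) :
    Prop where
  fac : ∀ F ∈ 𝓕, IsFacet (cone K) F
  zero : ∀ R ∈ G, 0 ∈ R
  card : ∀ R ∈ G, R.card = d + 1

theorem zero_mem_ridge (hp : ∀ F, IsFacet (cone K) F → F.card = d + 1 + 1)
    {F F' R : Finset (Fin (n + 1))} (hF : IsFacet (cone K) F) (hF' : IsFacet (cone K) F')
    (hne : F ≠ F') (hR : R.card = d + 1) (h1 : R ⊆ F) (h2 : R ⊆ F') : 0 ∈ R := by
  have h3 : R ⊆ F ∩ F' := subset_inter h1 h2
  have h4 : (F ∩ F').card < F.card := by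
    apply card_lt_card
    rw [ssubset_iff_subset_ne]
    refine ⟨inter_subset_left, fun h => hne ?_⟩
    have h5 : F ⊆ F' := by rw [← h]; exact inter_subset_right
    exact (hF.2 F' hF'.1 h5).symm
  have h6 : R = F ∩ F' := by
    apply eq_of_subset_of_card_le h3
    have := hp F hF
    omega
  rw [h6, mem_inter]
  exact ⟨(isFacet_cone.1 hF).1, (isFacet_cone.1 hF').1⟩

theorem sameFace_down {𝓕 G : Finset (Finset (Fin (n + 1)))} {A F F' : Finset (Fin (n + 1))}
    (h : SameFace 𝓕 G A F F') :
    SameFace (𝓕.image down) (G.image down) (down A) (down F) (down F') := by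
  induction h with
  | refl => exact Relation.ReflTransGen.refl
  | tail _ h2 ih =>
    obtain ⟨h3, h4, R, hR, hA, h5, h6⟩ := h2
    exact ih.tail ⟨mem_image_of_mem _ h3, mem_image_of_mem _ h4, down R, mem_image_of_mem _ hR,
      down_mono hA, down_mono h5, down_mono h6⟩

theorem stage_down (hp : ∀ F, IsFacet (cone K) F → F.card = d + 1 + 1)
    {𝓕 G : Finset (Finset (Fin (n + 1)))} (h : LCStage (d + 1) (cone K) 𝓕 G) :
    Inv d K 𝓕 G ∧ LCStage d K (𝓕.image down) (G.image down) := by
  induction h with
  | start F hF =>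
    refine ⟨⟨?_, ?_, ?_⟩, ?_⟩
    · intro F' hF'
      rw [mem_singleton.1 hF']
      exact hF
    · intro R hR
      exact absurd hR (notMem_empty R)
    · intro R hR
      exact absurd hR (notMem_empty R)
    · rw [image_singleton, image_empty]
      exact LCStage.start _ (isFacet_cone.1 hF).2
  | attach 𝓕 G F F' R h hF hF' hn hR h1 h2 hG ih =>
    obtain ⟨hI, hS⟩ := ih
    have hFf := hI.fac F hF
    have hne : F ≠ F' := fun e => hn (e ▸ hF)
    have h0 := zero_mem_ridge hp hFf hF' hne hR h1 h2
    refine ⟨⟨?_, ?_, ?_⟩, ?_⟩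
    · intro X hX
      rcases mem_insert.1 hX with rfl | hX
      · exact hF'
      · exact hI.fac X hX
    · intro X hX
      rcases mem_insert.1 hX with rfl | hX
      · exact h0
      · exact hI.zero X hX
    · intro X hX
      rcases mem_insert.1 hX with rfl | hX
      · exact hR
      · exact hI.card X hX
    · rw [image_insert, image_insert]
      refine LCStage.attach (𝓕.image down) (G.image down) (down F) (down F') (down R) hS
        (mem_image_of_mem _ hF) (isFacet_cone.1 hF').2 ?_ ?_ (down_mono h1) (down_mono h2) ?_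
      · intro hm
        obtain ⟨X, hX, hXe⟩ := mem_image.1 hm
        have := down_injOn (isFacet_cone.1 (hI.fac X hX)).1 (isFacet_cone.1 hF').1 hXe
        exact hn (this ▸ hX)
      · have := card_down h0
        omega
      · intro hm
        obtain ⟨X, hX, hXe⟩ := mem_image.1 hm
        have := down_injOn (hI.zero X hX) h0 hXe
        exact hG (this ▸ hX)
  | glue 𝓕 G F F' R A h hF hF' hne hR h1 h2 hG hA hAR hs ih =>
    obtain ⟨hI, hS⟩ := ih
    have hFf := hI.fac F hF
    have hFf' := hI.fac F' hF'
    have h0 := zero_mem_ridge hp hFf hFf' hne hR h1 h2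
    have hA0 : 0 ∈ A := by
      by_contra hA0
      -- then `A = R \ {0}` and the two copies of `A` are not the same face
      have hAe : A = R.erase 0 := by
        apply eq_of_subset_of_card_le
        · intro i hi
          exact mem_erase.2 ⟨fun e => hA0 (e ▸ hi), hAR hi⟩
        · rw [card_erase_of_mem h0]
          omega
      have hRG : ∀ R' ∈ G, A ⊆ R' → False := by
        intro R' hR' hAR'
        have h3 : insert 0 A ⊆ R' := insert_subset (hI.zero R' hR') hAR'
        have h4 : insert 0 A = R := by rw [hAe, insert_erase h0]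
        rw [h4] at h3
        have h5 : R = R' := eq_of_subset_of_card_le h3 (by rw [hI.card R' hR', hR])
        exact hG (h5 ▸ hR')
      apply hne
      rcases Relation.ReflTransGen.cases_head hs with h3 | ⟨Y, ⟨_, _, R', hR', hAR', _⟩, _⟩
      · exact h3
      · exact absurd (hRG R' hR' hAR') id
    refine ⟨⟨hI.fac, ?_, ?_⟩, ?_⟩
    · intro X hX
      rcases mem_insert.1 hX with rfl | hX
      · exact h0
      · exact hI.zero X hX
    · intro X hX
      rcases mem_insert.1 hX with rfl | hX
      · exact hR
      · exact hI.card X hX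
    · rw [image_insert]
      refine LCStage.glue (𝓕.image down) (G.image down) (down F) (down F') (down R) (down A) hS
        (mem_image_of_mem _ hF) (mem_image_of_mem _ hF') ?_ ?_ (down_mono h1) (down_mono h2) ?_ ?_
        (down_mono hAR) (sameFace_down hs)
      · intro e
        exact hne (down_injOn (isFacet_cone.1 hFf).1 (isFacet_cone.1 hFf').1 e)
      · have := card_down h0
        omega
      · intro hm
        obtain ⟨X, hX, hXe⟩ := mem_image.1 hm
        have := down_injOn (hI.zero X hX) h0 hXe
        exact hG (this ▸ hX)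
      · have := card_down hA0
        omega

theorem facet_up {F : Finset (Fin n)} (h : IsFacet K F) : IsFacet (cone K) (insert 0 (lift F)) := by
  rw [isFacet_cone, down_insert, down_lift]
  exact ⟨mem_insert_self _ _, h⟩

theorem insert_lift_mono {σ τ : Finset (Fin n)} (h : σ ⊆ τ) :
    insert 0 (lift σ) ⊆ insert 0 (lift τ) :=
  insert_subset_insert _ (map_subset_map.2 h)

theorem insert_lift_inj {σ τ : Finset (Fin n)}
    (h : (insert 0 (lift σ) : Finset (Fin (n + 1))) = insert 0 (lift τ)) : σ = τ := by
  have := congrArg down h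
  rwa [down_insert, down_insert, down_lift, down_lift] at this

/-- **If the cone over `K` is locally constructible then `K` is locally constructible.** -/
theorem isLC_of_cone (h : IsLC (d + 1) (cone K)) : IsLC d K := by
  obtain ⟨hp, h2, 𝓕, G, hS, hF, hA⟩ := h
  obtain ⟨hI, hS'⟩ := stage_down hp hS
  refine ⟨?_, ?_, 𝓕.image down, G.image down, hS', ?_, ?_⟩
  · intro F hF
    have := hp _ (facet_up hF)
    rw [card_insert_of_notMem zero_notMem_lift, card_lift] at this
    omega
  · intro R hR X Y Z hX hY hZ h3 h4 h5
    have h6 := h2 (insert 0 (lift R)) (by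
      rw [card_insert_of_notMem zero_notMem_lift, card_lift, hR]) _ _ _ (facet_up hX) (facet_up hY)
      (facet_up hZ) (insert_lift_mono h3) (insert_lift_mono h4) (insert_lift_mono h5)
    rcases h6 with h6 | h6 | h6
    · exact Or.inl (insert_lift_inj h6)
    · exact Or.inr (Or.inl (insert_lift_inj h6))
    · exact Or.inr (Or.inr (insert_lift_inj h6))
  · intro F h3
    refine mem_image.2 ⟨_, hF _ (facet_up h3), ?_⟩
    rw [down_insert, down_lift]
  · intro A hA' F hF' F' hF'' h3 h4
    obtain ⟨X, hX, rfl⟩ := mem_image.1 hF'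
    obtain ⟨Y, hY, rfl⟩ := mem_image.1 hF''
    have h5 : insert 0 (lift A) ⊆ X := by
      have := insert_lift_mono h3
      rwa [insert_lift_down, insert_eq_of_mem (isFacet_cone.1 (hI.fac X hX)).1] at this
    have h6 : insert 0 (lift A) ⊆ Y := by
      have := insert_lift_mono h4
      rwa [insert_lift_down, insert_eq_of_mem (isFacet_cone.1 (hI.fac Y hY)).1] at this
    have h7 := sameFace_down (hA (insert 0 (lift A))
      (by rw [mem_cone, down_insert, down_lift]; exact hA') X hX Y hY h5 h6)
    rwa [down_insert, down_lift] at h7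

end Pool.Agent.K9h74.NE
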