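import Mathlib
import Pool.Agent.K9h74.NE.Cone

set_option autoImplicit false

/-!
# Cones are non-evasive
-/

namespace Pool.Agent.K9h74.NE

open Finset Pool.Agent.H933R3

variable {V : Type} [DecidableEq V]

theorem nonEvasive_of_apex (v : V) : ∀ (k : ℕ) (M : Finset (Finset V)), IsCx M → {v} ∈ M →
    (∀ σ ∈ M, insert v σ ∈ M) → (M.filter (fun σ => σ.card = 1)).card = k → NonEvasive M := by
  intro k
  induction k using Nat.strong_induction_on with
  | _ k ih =>
    intro M hM hv hc hk
    by_cases h : ∃ w, w ≠ v ∧ {w} ∈ M
    · obtain ⟨w, hwv, hw⟩ := h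
      have hlt : ∀ N : Finset (Finset V), N ⊆ M → {w} ∉ N →
          (N.filter (fun σ => σ.card = 1)).card < k := by
        intro N hN hwN
        rw [← hk]
        apply card_lt_card
        rw [ssubset_iff_of_subset (filter_subset_filter _ hN)]
        exact ⟨{w}, mem_filter.2 ⟨hw, card_singleton w⟩, fun h => hwN (mem_filter.1 h).1⟩
      have hd : IsCx (del M w) := by
        refine ⟨mem_filter.2 ⟨hM.1, notMem_empty w⟩, fun σ hσ τ hτ => ?_⟩
        rw [del, mem_filter] at hσ ⊢
        exact ⟨hM.2 σ hσ.1 τ hτ, fun h => hσ.2 (hτ h)⟩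
      have hl : IsCx (link M w) := by
        refine ⟨mem_filter.2 ⟨hM.1, notMem_empty w, by simpa using hw⟩, fun σ hσ τ hτ => ?_⟩
        rw [link, mem_filter] at hσ ⊢
        exact ⟨hM.2 σ hσ.1 τ hτ, fun h => hσ.2.1 (hτ h),
          hM.2 _ hσ.2.2 _ (insert_subset_insert w hτ)⟩
      refine NonEvasive.step M w hw ?_ ?_
      · refine ih _ (hlt (del M w) (filter_subset _ _) (fun h => ?_)) (del M w) hd ?_ ?_ rfl
        · exact (mem_filter.1 h).2 (mem_singleton_self w)
        · exact mem_filter.2 ⟨hv, fun h => hwv (mem_singleton.1 h)⟩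
        · intro σ hσ
          rw [del, mem_filter] at hσ ⊢
          refine ⟨hc σ hσ.1, fun h => ?_⟩
          rcases mem_insert.1 h with h | h
          · exact hwv h
          · exact hσ.2 h
      · refine ih _ (hlt (link M w) (filter_subset _ _) (fun h => ?_)) (link M w) hl ?_ ?_ rfl
        · exact (mem_filter.1 h).2.1 (mem_singleton_self w)
        · refine mem_filter.2 ⟨hv, fun h => hwv (mem_singleton.1 h), ?_⟩
          have := hc {w} hw
          rwa [show insert w ({v} : Finset V) = insert v {w} from pair_comm w v]
        · intro σ hσ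
          rw [link, mem_filter] at hσ ⊢
          refine ⟨hc σ hσ.1, fun h => ?_, ?_⟩
          · rcases mem_insert.1 h with h | h
            · exact hwv h
            · exact hσ.2.1 h
          · rw [insert_comm]
            exact hc _ hσ.2.2
    · push Not at h
      have hM' : M = {∅, {v}} := by
        ext σ
        rw [mem_insert, mem_singleton]
        constructor
        · intro hσ
          by_cases h1 : σ = ∅
          · exact Or.inl h1
          · right
            have h2 : ∀ w ∈ σ, w = v := by
              intro w hw
              by_contra h3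
              exact h w h3 (hM.2 σ hσ {w} (singleton_subset_iff.2 hw))
            obtain ⟨w, hw⟩ := nonempty_iff_ne_empty.2 h1
            ext x
            rw [mem_singleton]
            exact ⟨h2 x, fun hx => by rw [hx, ← h2 w hw]; exact hw⟩
        · rintro (rfl | rfl)
          · exact hM.1
          · exact hv
      rw [hM']
      exact NonEvasive.point v

theorem nonEvasive_cone {n : ℕ} {K : Finset (Finset (Fin n))} (h : IsCx K) :
    NonEvasive (cone K) := by
  refine nonEvasive_of_apex (0 : Fin (n + 1)) _ (cone K) (isCx_cone h) ?_ ?_ rfl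
  · rw [mem_cone]
    have : down ({0} : Finset (Fin (n + 1))) = ∅ := by
      ext i
      rw [mem_down, mem_singleton]
      simp [Fin.succ_ne_zero]
    rw [this]
    exact h.1
  · intro σ hσ
    rw [mem_cone, down_insert]
    exact mem_cone.1 hσ

end Pool.Agent.K9h74.NE
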