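import Mathlib
import Pool.Agent.K9h74.NE.Data
import Pool.Agent.K9h74.NE.NonEv
import Pool.Agent.K9h74.NE.LcCone

set_option autoImplicit false

/-!
# Non-evasive balls that are not locally constructible
-/

namespace Pool.Agent.K9h74.NE

open Finset Pool.Agent.H933R3 Pool.Agent.Y364.E3

/-- `K` is locally constructible in dimension `d`: it is obtained from a tree of `d`-simplices by a
finite sequence of local gluings.

A complex in the sequence is given by the set `𝓕` of its `d`-simplices, which are the facets of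
`K`, and by the set of the `(d-1)`-faces of `K` along which two of them have been glued.
`TreeStage d K 𝓕 T` says that the simplices in `𝓕`, glued along the faces in `T`, form a tree of
`d`-simplices, `GlueStage d 𝓕 T G` that a sequence of local gluings leads from `T` to `G`.  In the
final complex all facets of `K` have been used, and two facets of `K` that contain a face `A` of
`K` have the face `A` in common (so the final complex is `K`).  The intermediate complexes need not
be simplicial complexes (two different simplices may have the same vertices). -/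
def LocallyConstructible {V : Type} [DecidableEq V] (d : ℕ) (K : Finset (Finset V)) : Prop :=
  ∃ 𝓕 T G : Finset (Finset V), TreeStage d K 𝓕 T ∧ GlueStage d 𝓕 T G ∧
    (∀ F, IsFacet K F → F ∈ 𝓕) ∧
    ∀ A ∈ K, ∀ F ∈ 𝓕, ∀ F' ∈ 𝓕, A ⊆ F → A ⊆ F' → SameFace 𝓕 G A F F'

/-- `K` is pure of dimension `d` and every `(d-1)`-face lies in at most two facets. -/
def Pseudo {V : Type} [DecidableEq V] (d : ℕ) (K : Finset (Finset V)) : Prop :=
  (∀ F, IsFacet K F → F.card = d + 1) ∧ AtMostTwo d K

theorem stage_of_tree {V : Type} [DecidableEq V] {d : ℕ} {K 𝓕 T : Finset (Finset V)}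
    (h : TreeStage d K 𝓕 T) : LCStage d K 𝓕 T := by
  induction h with
  | start F hF => exact LCStage.start F hF
  | attach 𝓕 T F F' R _ hF hF' hn hR h1 h2 hT ih =>
    exact LCStage.attach 𝓕 T F F' R ih hF hF' hn hR h1 h2 hT

theorem stage_of_glue {V : Type} [DecidableEq V] {d : ℕ} {K 𝓕 T G : Finset (Finset V)}
    (hT : LCStage d K 𝓕 T) (h : GlueStage d 𝓕 T G) : LCStage d K 𝓕 G := by
  induction h with
  | start => exact hT
  | glue G F F' R A _ hF hF' hne hR h1 h2 hG hA hAR hs ih =>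
    exact LCStage.glue 𝓕 G F F' R A ih hF hF' hne hR h1 h2 hG hA hAR hs

theorem isLC_of {V : Type} [DecidableEq V] {d : ℕ} {K : Finset (Finset V)} (hp : Pseudo d K)
    (h : LocallyConstructible d K) : IsLC d K := by
  obtain ⟨𝓕, T, G, h1, h2, h3, h4⟩ := h
  exact ⟨hp.1, hp.2, 𝓕, G, stage_of_glue (stage_of_tree h1) h2, h3, h4⟩

theorem pseudo_cone {n d : ℕ} {K : Finset (Finset (Fin n))} (h : Pseudo d K) :
    Pseudo (d + 1) (cone K) := by
  have hc : ∀ F, IsFacet (cone K) F → F.card = d + 1 + 1 := by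
    intro F hF
    obtain ⟨h0, h1⟩ := isFacet_cone.1 hF
    rw [← card_down h0, h.1 _ h1]
  refine ⟨hc, ?_⟩
  intro R hR X Y Z hX hY hZ h1 h2 h3
  obtain ⟨x0, hX'⟩ := isFacet_cone.1 hX
  obtain ⟨y0, hY'⟩ := isFacet_cone.1 hY
  obtain ⟨z0, hZ'⟩ := isFacet_cone.1 hZ
  by_cases h0 : 0 ∈ R
  · have hR' : (down R).card = d := by
      have := card_down h0
      omega
    rcases h.2 (down R) hR' _ _ _ hX' hY' hZ' (down_mono h1) (down_mono h2) (down_mono h3) with
      e | e | e
    · exact Or.inl (down_injOn x0 y0 e)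
    · exact Or.inr (Or.inl (down_injOn x0 z0 e))
    · exact Or.inr (Or.inr (down_injOn y0 z0 e))
  · left
    have key : ∀ X, IsFacet (cone K) X → 0 ∈ X → R ⊆ X → insert 0 R = X := by
      intro X hX x0 hRX
      apply eq_of_subset_of_card_le (insert_subset x0 hRX)
      rw [hc X hX, card_insert_of_notMem h0, hR]
    rw [← key X hX x0 h1, key Y hY y0 h2]

theorem two_check : ∀ m1 ∈ Bk, ∀ m2 ∈ Bk, m1 = m2 ∨ (decF 12 (m1 &&& m2)).card < 3 ∨
    ∀ m3 ∈ Bk, m1 = m3 ∨ m2 = m3 ∨ (decF 12 (m1 &&& m2 &&& m3)).card < 3 := by decide +kernel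

theorem sub_land {n a b : ℕ} {R : Finset (Fin n)} (h1 : R ⊆ decF n a) (h2 : R ⊆ decF n b) :
    R ⊆ decF n (a &&& b) := by
  intro i hi
  have h3 := mem_decF.1 (h1 hi)
  have h4 := mem_decF.1 (h2 hi)
  rw [mem_decF, Nat.testBit_land, h3, h4]
  rfl

theorem pseudo_Bk : Pseudo 3 (cx 12 Bk) := by
  refine ⟨fun F hF => (goodF hF).1, ?_⟩
  intro R hR X Y Z hX hY hZ h1 h2 h3
  obtain ⟨m1, hm1, rfl⟩ := facet_cx hX
  obtain ⟨m2, hm2, rfl⟩ := facet_cx hY
  obtain ⟨m3, hm3, rfl⟩ := facet_cx hZ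
  have h4 := sub_land h1 h2
  have h5 := sub_land h4 h3
  rcases two_check m1 hm1 m2 hm2 with e | e | e
  · exact Or.inl (by rw [e])
  · have := card_le_card h4
    omega
  · rcases e m3 hm3 with e | e | e
    · exact Or.inr (Or.inl (by rw [e]))
    · exact Or.inr (Or.inr (by rw [e]))
    · have := card_le_card h5
      omega

/-- the iterated cones over the 3-ball -/
theorem iterated (k : ℕ) : ∃ K : Finset (Finset (Fin (12 + k))),
    IsCx K ∧ IsBall (3 + k) K ∧ Pseudo (3 + k) K ∧ ¬ IsLC (3 + k) K ∧ (1 ≤ k → NonEvasive K) := by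
  induction k with
  | zero =>
    exact ⟨cx 12 Bk, isCx_cx (by decide), isBall_Bk, pseudo_Bk, not_isLC, fun h => by omega⟩
  | succ k ih =>
    obtain ⟨K, h1, h2, h3, h4, -⟩ := ih
    exact ⟨cone K, isCx_cone h1, isBall_cone h2, pseudo_cone h3, fun h => h4 (isLC_of_cone h),
      fun _ => nonEvasive_cone h1⟩

theorem main (d : ℕ) (hd : 4 ≤ d) : ∃ K : Finset (Finset (Fin (d + 9))),
    IsCx K ∧ IsBall d K ∧ NonEvasive K ∧ ¬ LocallyConstructible d K := by
  obtain ⟨k, rfl⟩ := Nat.exists_eq_add_of_le hd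
  obtain ⟨K, h1, h2, h3, h4, h5⟩ := iterated (k + 1)
  have e1 : 12 + (k + 1) = 4 + k + 9 := by omega
  have e2 : 3 + (k + 1) = 4 + k := by omega
  rw [e2] at h2 h3 h4
  have key : ∀ m : ℕ, 12 + (k + 1) = m → ∃ K : Finset (Finset (Fin m)),
      IsCx K ∧ IsBall (4 + k) K ∧ NonEvasive K ∧ ¬ LocallyConstructible (4 + k) K := by
    rintro m rfl
    exact ⟨K, h1, h2, h5 (by omega), fun h => h4 (isLC_of h3 h)⟩
  exact key _ e1

end Pool.Agent.K9h74.NE
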